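import Pool.Agent.R345.SS5

set_option autoImplicit false

/-! Determinants of integer vectors: the bilinear bound for products of Legendre symbols. -/

namespace Pool.Agent.V8H62.DT

open Finset Pool.Agent.R345.SS

/-- the determinant of two vectors -/
def dt (u v : ℤ × ℤ) : ℤ := u.1 * v.2 - u.2 * v.1

theorem dt_self (u : ℤ × ℤ) : dt u u = 0 := by unfold dt; ring

/-- the kernel on the projective line modulo `p`: the points are `0, ..., p - 1` and `p` (infinity) -/
noncomputable def K (p : ℕ) (u : ℤ × ℤ) (t : ℕ) : ℝ := if t < p then J (u.1 * t - u.2) p else J u.1 p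

theorem K_abs (p : ℕ) (u : ℤ × ℤ) (t : ℕ) : |K p u t| ≤ 1 := by
  unfold K
  split_ifs <;> exact J_abs _ _

/-- the point of a vector -/
theorem exists_pt (p : ℕ) (hp : p.Prime) (v : ℤ × ℤ) : ∃ t : ℕ, t ∈ range (p + 1) ∧
    ((¬ (p : ℤ) ∣ v.1 ∧ t < p ∧ (p : ℤ) ∣ v.2 - t * v.1) ∨ ((p : ℤ) ∣ v.1 ∧ t = p)) := by
  have : Fact p.Prime := ⟨hp⟩
  by_cases h : (p : ℤ) ∣ v.1
  · exact ⟨p, mem_range.2 (Nat.lt_succ_self p), Or.inr ⟨h, rfl⟩⟩
  · have hne : ((v.1 : ℤ) : ZMod p) ≠ 0 := by
      intro h'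
      exact h ((ZMod.intCast_zmod_eq_zero_iff_dvd _ _).1 h')
    set z : ZMod p := (v.2 : ZMod p) * ((v.1 : ℤ) : ZMod p)⁻¹ with hz
    refine ⟨z.val, mem_range.2 ((ZMod.val_lt z).trans (Nat.lt_succ_self p)), Or.inl ⟨h, ZMod.val_lt z, ?_⟩⟩
    rw [← ZMod.intCast_zmod_eq_zero_iff_dvd]
    push_cast
    rw [ZMod.natCast_zmod_val, hz, mul_assoc, inv_mul_cancel₀ hne, mul_one, sub_self]

/-- the point of a vector modulo `p` -/
noncomputable def pt (p : ℕ) (v : ℤ × ℤ) : ℕ := by
  classical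
  exact if hp : p.Prime then (exists_pt p hp v).choose else 0

theorem pt_spec (p : ℕ) (hp : p.Prime) (v : ℤ × ℤ) : pt p v ∈ range (p + 1) ∧
    ((¬ (p : ℤ) ∣ v.1 ∧ pt p v < p ∧ (p : ℤ) ∣ v.2 - pt p v * v.1) ∨ ((p : ℤ) ∣ v.1 ∧ pt p v = p)) := by
  have h := (exists_pt p hp v).choose_spec
  have e : pt p v = (exists_pt p hp v).choose := by
    unfold pt
    rw [dif_pos hp]
  rw [e]
  exact h

/-- the sign of a vector modulo `p` -/
noncomputable def sg (p : ℕ) (v : ℤ × ℤ) : ℝ := by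
  classical
  exact if (p : ℤ) ∣ v.1 then J v.2 p else J v.1 p

theorem sg_abs (p : ℕ) (v : ℤ × ℤ) : |sg p v| ≤ 1 := by
  unfold sg
  split_ifs <;> exact J_abs _ _

theorem J_dt (p : ℕ) (hp : p.Prime) (u v : ℤ × ℤ) : J (dt u v) p = sg p v * K p u (pt p v) := by
  rcases (pt_spec p hp v).2 with ⟨h1, h2, h3⟩ | ⟨h1, h2⟩
  · unfold sg K
    rw [if_neg h1, if_pos h2, ← J_mul]
    apply J_congr
    refine (Int.modEq_iff_dvd.2 ?_ : dt u v ≡ v.1 * (u.1 * (pt p v : ℕ) - u.2) [ZMOD p])
    have e : v.1 * (u.1 * ((pt p v : ℕ) : ℤ) - u.2) - dt u v = -u.1 * (v.2 - (pt p v : ℕ) * v.1) := by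
      unfold dt; ring
    rw [e]
    exact h3.mul_left _
  · unfold sg K
    rw [if_pos h1, if_neg (by omega), ← J_mul]
    apply J_congr
    refine (Int.modEq_iff_dvd.2 ?_ : dt u v ≡ v.2 * u.1 [ZMOD p])
    have e : v.2 * u.1 - dt u v = u.2 * v.1 := by unfold dt; ring
    rw [e]
    exact h1.mul_left _

theorem pt_eq (p : ℕ) (hp : p.Prime) (v v' : ℤ × ℤ) (h : pt p v = pt p v') : (p : ℤ) ∣ dt v v' := by
  rcases (pt_spec p hp v).2 with ⟨h1, h2, h3⟩ | ⟨h1, h2⟩
  · rcases (pt_spec p hp v').2 with ⟨h1', h2', h3'⟩ | ⟨h1', h2'⟩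
    · have e : dt v v' = v.1 * (v'.2 - (pt p v' : ℕ) * v'.1) - v'.1 * (v.2 - (pt p v : ℕ) * v.1) := by
        rw [h]; unfold dt; ring
      rw [e]
      exact dvd_sub (h3'.mul_left _) (h3.mul_left _)
    · omega
  · rcases (pt_spec p hp v').2 with ⟨h1', h2', h3'⟩ | ⟨h1', h2'⟩
    · omega
    · unfold dt
      exact dvd_sub (h1.mul_right _) (h1'.mul_left _)

/-- complete sums over the projective line -/
theorem one_prime (p : ℕ) (hp : p.Prime) (h2 : p ≠ 2) (u u' : ℤ × ℤ) :
    |∑ t ∈ range (p + 1), K p u t * K p u' t| ≤ c (dt u u') p := by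
  have : Fact p.Prime := ⟨hp⟩
  by_cases hd : (p : ℤ) ∣ dt u u'
  · unfold c
    rw [if_pos hd]
    refine (abs_sum_le_sum_abs _ _).trans ?_
    refine (sum_le_sum (g := fun _ => (1 : ℝ)) fun x _ => ?_).trans ?_
    · rw [abs_mul]
      exact mul_le_one₀ (K_abs _ _ _) (abs_nonneg _) (K_abs _ _ _)
    · simp [add_comm]
  · unfold c
    rw [if_neg hd]
    have hJ : ∀ n : ℤ, J n p = ((quadraticChar (ZMod p) (n : ZMod p) : ℤ) : ℝ) := by
      intro n
      unfold J
      rw [← jacobiSym.legendreSym.to_jacobiSym]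
      rfl
    have hchar : ringChar (ZMod p) ≠ 2 := by
      rw [ZMod.ringChar_zmod_n]; exact h2
    have hnt : quadraticChar (ZMod p) ≠ 1 := quadraticChar_ne_one hchar
    have hinv : (quadraticChar (ZMod p))⁻¹ = quadraticChar (ZMod p) := (quadraticChar_isQuadratic (ZMod p)).inv
    have hjs := jacobiSum_nontrivial_inv hnt
    have hsum0 : ∑ z : ZMod p, quadraticChar (ZMod p) z = 0 := quadraticChar_sum_zero hchar
    rw [hinv, jacobiSum] at hjs
    set χ := quadraticChar (ZMod p) with hχ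
    set a : ZMod p := (u.1 : ZMod p) with ha
    set b : ZMod p := (u.2 : ZMod p) with hb
    set a' : ZMod p := (u'.1 : ZMod p) with ha'
    set b' : ZMod p := (u'.2 : ZMod p) with hb'
    have hdne : a * b' - b * a' ≠ 0 := by
      intro h
      apply hd
      rw [← ZMod.intCast_zmod_eq_zero_iff_dvd]
      unfold dt
      push_cast
      exact h
    have h11 : χ (-1) * χ (-1) = 1 := by
      rw [← sq]
      exact quadraticChar_sq_one (neg_ne_zero.2 one_ne_zero)
    have key : ∑ z : ZMod p, χ (a * z - b) * χ (a' * z - b') + χ a * χ a' = 0 := by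
      have lin : ∀ c d : ZMod p, c ≠ 0 → ∑ z : ZMod p, χ (c * z - d) = 0 := by
        intro c d hc
        have e : Function.Bijective (fun t : ZMod p => c * t - d) := by
          have h4 : Function.Injective (fun t : ZMod p => c * t - d) := by
            intro x y hxy
            simp only [sub_left_inj] at hxy
            exact mul_left_cancel₀ hc hxy
          exact Finite.injective_iff_bijective.1 h4
        rw [← hsum0, ← (Equiv.ofBijective _ e).sum_comp χ]
        rfl
      by_cases h0 : a = 0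
      · have h0' : a' ≠ 0 := by
          rintro h; apply hdne; rw [h0, h]; ring
        rw [h0, show χ 0 = 0 from MulChar.map_zero χ, zero_mul, add_zero]
        have e1 : ∀ z : ZMod p, χ (0 * z - b) * χ (a' * z - b') = χ (0 - b) * χ (a' * z - b') := by
          intro z; rw [zero_mul]
        rw [sum_congr rfl fun z _ => e1 z, ← mul_sum, lin _ _ h0', mul_zero]
      by_cases h0' : a' = 0
      · rw [h0', show χ 0 = 0 from MulChar.map_zero χ, mul_zero, add_zero]
        have e1 : ∀ z : ZMod p, χ (a * z - b) * χ (0 * z - b') = χ (0 - b') * χ (a * z - b) := by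
          intro z; rw [zero_mul, mul_comm]
        rw [sum_congr rfl fun z _ => e1 z, ← mul_sum, lin _ _ h0, mul_zero]
      -- both nonzero
      set r : ZMod p := b / a with hr
      set r' : ZMod p := b' / a' with hr'
      have hb1 : b = a * r := by rw [hr]; field_simp
      have hb2 : b' = a' * r' := by rw [hr']; field_simp
      have hrr : r - r' ≠ 0 := by
        intro h
        apply hdne
        have : r = r' := by linear_combination h
        rw [hb1, hb2, this]; ring
      have h3 : ∑ z : ZMod p, χ (a * z - b) * χ (a' * z - b') =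
          ∑ t : ZMod p, (χ a * χ a' * χ (-1)) * (χ t * χ (1 - t)) := by
        have e : Function.Bijective (fun t : ZMod p => (r - r') * t + r') := by
          have h4 : Function.Injective (fun t : ZMod p => (r - r') * t + r') := by
            intro x y hxy
            simp only [add_left_inj] at hxy
            exact mul_left_cancel₀ hrr hxy
          exact Finite.injective_iff_bijective.1 h4
        rw [← (Equiv.ofBijective _ e).sum_comp]
        refine sum_congr rfl fun t _ => ?_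
        rw [Equiv.ofBijective_apply]
        have e1 : a * ((r - r') * t + r') - b = a * ((r - r') * (-1 * (1 - t))) := by
          rw [hb1]; ring
        have e2 : a' * ((r - r') * t + r') - b' = a' * ((r - r') * t) := by
          rw [hb2]; ring
        rw [e1, e2, map_mul, map_mul, map_mul, map_mul, map_mul]
        have h5 : χ (r - r') * χ (r - r') = 1 := by
          rw [← sq]
          exact quadraticChar_sq_one hrr
        calc χ a * (χ (r - r') * (χ (-1) * χ (1 - t))) * (χ a' * (χ (r - r') * χ t)) =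
            (χ a * χ a' * χ (-1)) * (χ t * χ (1 - t)) * (χ (r - r') * χ (r - r')) := by ring
          _ = _ := by rw [h5, mul_one]
      rw [h3, ← mul_sum, hjs]
      linear_combination (-(χ a * χ a')) * h11
    have h7 : ∑ t ∈ range (p + 1), K p u t * K p u' t = 0 := by
      rw [sum_range_succ]
      have e1 : K p u p * K p u' p = ((χ a * χ a' : ℤ) : ℝ) := by
        unfold K
        rw [if_neg (lt_irrefl p), if_neg (lt_irrefl p), hJ, hJ]
        push_cast
        rfl
      have e2 : ∑ x ∈ range p, K p u x * K p u' x =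
          ∑ x ∈ range p, ((χ (a * (x : ZMod p) - b) * χ (a' * (x : ZMod p) - b') : ℤ) : ℝ) := by
        refine sum_congr rfl fun x hx => ?_
        unfold K
        rw [if_pos (mem_range.1 hx), if_pos (mem_range.1 hx), hJ, hJ]
        push_cast
        rfl
      have h8 := sum_zmod p (fun z => ((χ (a * z - b) * χ (a' * z - b') : ℤ) : ℝ))
      rw [e2, h8, e1, ← Int.cast_sum, ← Int.cast_add, key, Int.cast_zero]
    rw [h7]
    simp

/-- the bilinear bound -/
theorem bilinear (T : Finset ℕ) (hT : ∀ p ∈ T, p.Prime ∧ p ≠ 2) (A B : Finset (ℤ × ℤ)) :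
    (∑ u ∈ A, ∑ v ∈ B, ∏ p ∈ T, J (dt u v) p) ^ 2 ≤
      (∑ u ∈ A, ∑ u' ∈ A, ∏ p ∈ T, c (dt u u') p) *
        (∑ v ∈ B, ∑ v' ∈ B, ∏ p ∈ T, (if (p : ℤ) ∣ dt v v' then (1 : ℝ) else 0)) := by
  classical
  set Z : Finset ((p : ℕ) → p ∈ T → ℕ) := T.pi (fun p => range (p + 1)) with hZ
  set κ : ℤ × ℤ → ((p : ℕ) → p ∈ T → ℕ) := fun v p _ => pt p v with hκ
  have hκZ : ∀ v, κ v ∈ Z := by
    intro v
    rw [hZ, mem_pi]
    intro p hp
    exact (pt_spec p (hT p hp).1 v).1
  set S : ℤ × ℤ → ℝ := fun v => ∏ p ∈ T, sg p v with hS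
  have hSabs : ∀ v, |S v| ≤ 1 := by
    intro v
    rw [hS]
    simp only
    rw [abs_prod]
    exact prod_le_one (fun _ _ => abs_nonneg _) fun p _ => sg_abs p v
  set G : ((p : ℕ) → p ∈ T → ℕ) → ℝ := fun z => ∑ u ∈ A, ∏ x ∈ T.attach, K x.1 u (z x.1 x.2) with hG
  have h0 : ∀ u v, ∏ p ∈ T, J (dt u v) p = S v * ∏ x ∈ T.attach, K x.1 u (κ v x.1 x.2) := by
    intro u v
    rw [prod_congr rfl fun p hp => J_dt p (hT p hp).1 u v, prod_mul_distrib, hS]
    simp only
    rw [← prod_attach T (fun p => K p u (pt p v))]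
  have h1 : ∑ u ∈ A, ∑ v ∈ B, ∏ p ∈ T, J (dt u v) p =
      ∑ z ∈ Z, G z * (∑ v ∈ B with κ v = z, S v) := by
    rw [sum_comm]
    have e : ∀ v ∈ B, ∑ u ∈ A, ∏ p ∈ T, J (dt u v) p = G (κ v) * S v := by
      intro v _
      rw [sum_congr rfl fun u _ => h0 u v, ← mul_sum, mul_comm]
    rw [sum_congr rfl e, ← sum_fiberwise_of_maps_to (g := κ) (t := Z) (fun v _ => hκZ v)]
    refine sum_congr rfl fun z _ => ?_
    rw [mul_sum]
    exact sum_congr rfl fun v hv => by rw [(mem_filter.1 hv).2]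
  rw [h1]
  refine (sum_mul_sq_le_sq_mul_sq _ _ _).trans ?_
  have h2 : ∑ z ∈ Z, G z ^ 2 ≤ ∑ u ∈ A, ∑ u' ∈ A, ∏ p ∈ T, c (dt u u') p := by
    have h3 : ∀ z, G z ^ 2 = ∑ u ∈ A, ∑ u' ∈ A, ∏ x ∈ T.attach, (K x.1 u (z x.1 x.2) * K x.1 u' (z x.1 x.2)) := by
      intro z
      rw [sq, hG]
      simp only
      rw [sum_mul_sum]
      refine sum_congr rfl fun a _ => sum_congr rfl fun a' _ => ?_
      rw [prod_mul_distrib]
    rw [sum_congr rfl fun z _ => h3 z, sum_comm]
    refine sum_le_sum fun u _ => ?_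
    rw [sum_comm]
    refine sum_le_sum fun u' _ => ?_
    have h4 := (prod_sum T (fun p => range (p + 1)) (fun p t => K p u t * K p u' t)).symm
    rw [hZ, h4]
    refine (le_abs_self _).trans ?_
    rw [abs_prod]
    exact prod_le_prod (fun _ _ => abs_nonneg _) fun p hp => one_prime p (hT p hp).1 (hT p hp).2 u u'
  have h4 : ∑ z ∈ Z, (∑ v ∈ B with κ v = z, S v) ^ 2 ≤
      ∑ v ∈ B, ∑ v' ∈ B, ∏ p ∈ T, (if (p : ℤ) ∣ dt v v' then (1 : ℝ) else 0) := by
    have h5 : ∀ z ∈ Z, (∑ v ∈ B with κ v = z, S v) ^ 2 ≤ ((B.filter (fun v => κ v = z)).card : ℝ) ^ 2 := by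
      intro z _
      rw [← sq_abs]
      refine pow_le_pow_left₀ (abs_nonneg _) ?_ 2
      refine (abs_sum_le_sum_abs _ _).trans ((sum_le_sum (g := fun _ => (1 : ℝ)) fun v _ => hSabs v).trans ?_)
      simp
    refine (sum_le_sum h5).trans ?_
    have h6 : ∑ z ∈ Z, ((B.filter (fun v => κ v = z)).card : ℝ) ^ 2 = ∑ v ∈ B, ∑ v' ∈ B, (if κ v' = κ v then (1 : ℝ) else 0) := by
      have h8 : ∀ v, ∑ v' ∈ B, (if κ v' = κ v then (1 : ℝ) else 0) = ((B.filter (fun v' => κ v' = κ v)).card : ℝ) := by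
        intro b
        rw [sum_boole]
      rw [sum_congr rfl fun b _ => h8 b, ← sum_fiberwise_of_maps_to (g := κ) (t := Z) (fun v _ => hκZ v)]
      refine sum_congr rfl fun r _ => ?_
      rw [sum_congr rfl (g := fun _ => ((B.filter (fun b' => κ b' = r)).card : ℝ)) fun b hb => by rw [(mem_filter.1 hb).2],
        sum_const, nsmul_eq_mul, sq]
    rw [h6]
    refine sum_le_sum fun v _ => sum_le_sum fun v' _ => ?_
    by_cases h : κ v' = κ v
    · rw [if_pos h]
      refine le_of_eq (prod_eq_one fun p hp => if_pos ?_).symm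
      have h9 : pt p v' = pt p v := congrFun (congrFun h p) hp
      exact pt_eq p (hT p hp).1 v v' h9.symm
    · rw [if_neg h]
      refine prod_nonneg fun p _ => ?_
      split_ifs <;> norm_num
  refine mul_le_mul h2 h4 (sum_nonneg fun _ _ => sq_nonneg _) ?_
  exact sum_nonneg fun _ _ => sum_nonneg fun _ _ => prod_nonneg fun _ _ => c_nonneg _ _

end Pool.Agent.V8H62.DT
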