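import Pool.Agent.V8H62.DT.D3

set_option autoImplicit false

/-! All `y` in a dyadic interval (after `Pool.Agent.R345.SS4`). -/

namespace Pool.Agent.V8H62.DT

open Finset Pool.Agent.R345.SS
open scoped Nat.Prime

/-- any two different vectors of `A` are linearly independent, with determinant at most `X` -/
def Ind (X : ℕ) (A : Finset (ℤ × ℤ)) : Prop := ∀ a ∈ A, ∀ a' ∈ A, a ≠ a' → dt a a' ≠ 0 ∧ |dt a a'| ≤ X

/-- the number of such vectors -/
theorem card_le {X : ℕ} {A : Finset (ℤ × ℤ)} (hA : Ind X A) : (A.card : ℝ) ≤ (2 * (X : ℝ) + 1) ^ 2 := by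
  have hab : ∀ a ∈ A, ∀ a' ∈ A, |dt a a'| ≤ X := by
    intro a ha a' ha'
    by_cases h : a = a'
    · rw [h, dt_self, abs_zero]
      exact_mod_cast Nat.zero_le _
    · exact (hA a ha a' ha' h).2
  have hN : A.card ≤ (2 * X + 1) ^ 2 := by
    rcases Nat.lt_or_ge 1 A.card with h1 | h1
    · obtain ⟨a, ha, b, hb, hne⟩ := one_lt_card.1 h1
      have h0 := (hA a ha b hb hne).1
      have hinj : Set.InjOn (fun z : ℤ × ℤ => (dt z b, dt a z)) (A : Set (ℤ × ℤ)) := by
        intro z _ z' _ hzz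
        have e1 : dt z b = dt z' b := congrArg Prod.fst hzz
        have e2 : dt a z = dt a z' := congrArg Prod.snd hzz
        unfold dt at e1 e2 h0
        refine Prod.ext ?_ ?_
        · apply mul_left_cancel₀ h0
          linear_combination a.1 * e1 + b.1 * e2
        · apply mul_left_cancel₀ h0
          linear_combination a.2 * e1 + b.2 * e2
      have hmaps : ∀ z ∈ A, (dt z b, dt a z) ∈ (Icc (-(X : ℤ)) X) ×ˢ (Icc (-(X : ℤ)) X) := by
        intro z hz
        rw [mem_product, mem_Icc, mem_Icc]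
        exact ⟨abs_le.1 (hab z hz b hb), abs_le.1 (hab a ha z hz)⟩
      have h2 := card_le_card_of_injOn _ hmaps hinj
      rw [card_product, Int.card_Icc] at h2
      have h3 : ((X : ℤ) + 1 - -(X : ℤ)).toNat = 2 * X + 1 := by omega
      rw [h3] at h2
      rw [sq]
      exact h2
    · have : 0 < (2 * X + 1) ^ 2 := by positivity
      omega
  exact_mod_cast hN

/-- all `y` in a dyadic interval -/
theorem dyadic (k : ℕ) (hk : 1 ≤ k) (η : ℝ) (hη : 0 < η) (hη1 : η ≤ 1) : ∃ C : ℝ, 0 < C ∧ ∃ Y0 : ℕ, 4 ≤ Y0 ∧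
    ∀ (Y X : ℕ) (A A' : Finset (ℤ × ℤ)) (D : ℤ), 2 ≤ X → Y0 ≤ Y → Ind X A → Ind X A' →
      (Y : ℝ) ^ (2 * k) ≤ A.card → (Y : ℝ) ^ (2 * k) ≤ A'.card →
      ∀ G : Finset ((ℤ × ℤ) × (ℤ × ℤ)), (∀ z ∈ G, z ∈ A ×ˢ A' ∧ ∃ y, (Y ≤ y ∧ y ≤ 2 * Y) ∧ η * (π y : ℝ) ≤ |SJ (D * dt z.1 z.2) y|) →
      (G.card : ℝ) ≤ C * (Real.log X ^ 2 / Y) ^ k * (A.card * A'.card) := by
  classical
  obtain ⟨C, hC, hex⟩ := excep k hk (η / 2) (by linarith) (by linarith)
  obtain ⟨Y0, hY04, hY0⟩ := pi_facts (η / 8) (by linarith)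
  obtain ⟨I, hI⟩ : ∃ I : ℕ, 96 / η ≤ I := exists_nat_ge _
  refine ⟨(I + 1) * (C * 1152 ^ k), by positivity, Y0, hY04, ?_⟩
  intro Y X A A' D hX2 hYY hA hA' hcA hcA' G hG
  obtain ⟨f1, f2, f3, f4, f5⟩ := hY0 Y hYY
  have hY4 : 4 ≤ Y := hY04.trans hYY
  have hY4r : (4 : ℝ) ≤ Y := by exact_mod_cast hY4
  set N : ℕ := π Y with hN
  have hN8 : 8 ≤ η * N := by linarith
  have hNpos : (0 : ℝ) < N := by nlinarith
  have hX2r : (2 : ℝ) ≤ X := by exact_mod_cast hX2
  -- `Y ≤ X ^ 3`
  have hYX : (Y : ℝ) ≤ (X : ℝ) ^ 3 := by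
    have h1 := hcA.trans (card_le hA)
    have h2 : (Y : ℝ) ^ 2 ≤ (Y : ℝ) ^ (2 * k) := pow_le_pow_right₀ (by linarith) (by omega)
    have h3 : (Y : ℝ) ≤ 2 * X + 1 := by
      by_contra hlt
      push Not at hlt
      nlinarith
    nlinarith [sq_nonneg ((X : ℝ) - 2)]
  have hlY : 0 < Real.log Y := Real.log_pos (by linarith)
  have hlX : Real.log Y ≤ 3 * Real.log X := by
    have h1 := Real.log_le_log (by linarith) hYX
    rw [Real.log_pow] at h1
    exact_mod_cast h1
  have hlX0 : 0 < Real.log X := Real.log_pos (by linarith)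
  set W : ℝ := 6 * Real.log X / Real.log Y with hW
  have hW1 : 1 ≤ W := by
    rw [hW, one_le_div hlY]; linarith
  have hW2 : 2 * Real.log X / Real.log Y ≤ W := by
    rw [hW]
    exact div_le_div_of_nonneg_right (by linarith) hlY.le
  -- the grid
  set h : ℕ := ⌈η / 8 * N⌉₊ with hh
  have hh1 : η / 8 * N ≤ h := Nat.le_ceil _
  have hh2 : (h : ℝ) ≤ η / 4 * N := by
    have := Nat.ceil_lt_add_one (show 0 ≤ η / 8 * (N : ℝ) by positivity)
    linarith
  have hh0 : 0 < h := by
    have : (0 : ℝ) < h := by nlinarith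
    exact_mod_cast this
  set g : ℕ → ℕ := fun i => Nat.findGreatest (fun y => π y ≤ N + i * h) (2 * Y) with hg
  have hg1 : ∀ i, π (g i) ≤ N + i * h ∧ Y ≤ g i ∧ g i ≤ 2 * Y := by
    intro i
    refine ⟨?_, ?_, Nat.findGreatest_le _⟩
    · exact Nat.findGreatest_spec (P := fun y => π y ≤ N + i * h) (m := Y) (by omega) (by omega)
    · exact Nat.le_findGreatest (by omega) (by omega)
  set P : ℕ → Finset ℕ := fun i => (Nat.primesLE (g i)).filter (fun p => Nat.sqrt Y < p) with hPd
  set small : Finset ℕ := (Nat.primesLE Y).filter (fun p => ¬ Nat.sqrt Y < p) with hsm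
  have hsmall : (small.card : ℝ) ≤ η / 8 * N := by
    refine le_trans ?_ f3
    have h1 : small ⊆ Icc 1 (Nat.sqrt Y) := by
      intro p hp
      rw [hsm, mem_filter, Nat.mem_primesLE] at hp
      rw [mem_Icc]
      exact ⟨hp.1.2.one_lt.le, not_lt.1 hp.2⟩
    have h2 := card_le_card h1
    rw [Nat.card_Icc] at h2
    have h3 : (small.card : ℝ) ≤ Nat.sqrt Y := by
      have : small.card ≤ Nat.sqrt Y := by omega
      exact_mod_cast this
    exact h3.trans Real.nat_sqrt_le_real_sqrt
  have hsplit : ∀ i n, SJ n (g i) = ∑ p ∈ P i, J n p + ∑ p ∈ small, J n p := by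
    intro i n
    have h1 : small = (Nat.primesLE (g i)).filter (fun p => ¬ Nat.sqrt Y < p) := by
      rw [hsm]
      ext p
      rw [mem_filter, mem_filter, Nat.mem_primesLE, Nat.mem_primesLE]
      have h2 := (hg1 i).2.1
      have h3 := Nat.sqrt_le_self Y
      constructor
      · rintro ⟨⟨h4, h5⟩, h6⟩
        exact ⟨⟨by omega, h5⟩, h6⟩
      · rintro ⟨⟨h4, h5⟩, h6⟩
        exact ⟨⟨by omega, h5⟩, h6⟩
    rw [h1, SJ]
    exact (sum_filter_add_sum_filter_not _ _ _).symm
  have hcard : ∀ i, ((π (g i) : ℕ) : ℝ) = (P i).card + small.card := by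
    intro i
    have h1 : small = (Nat.primesLE (g i)).filter (fun p => ¬ Nat.sqrt Y < p) := by
      rw [hsm]
      ext p
      rw [mem_filter, mem_filter, Nat.mem_primesLE, Nat.mem_primesLE]
      have h2 := (hg1 i).2.1
      have h3 := Nat.sqrt_le_self Y
      constructor
      · rintro ⟨⟨h4, h5⟩, h6⟩
        exact ⟨⟨by omega, h5⟩, h6⟩
      · rintro ⟨⟨h4, h5⟩, h6⟩
        exact ⟨⟨by omega, h5⟩, h6⟩
    rw [h1, ← Nat.primesLE_card_eq_primeCounting, ← card_filter_add_card_filter_not (s := Nat.primesLE (g i)) (fun p => Nat.sqrt Y < p)]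
    push_cast
    rfl
  have habs : ∀ (T : Finset ℕ) (n : ℤ), |∑ p ∈ T, J n p| ≤ T.card := by
    intro T n
    refine (abs_sum_le_sum_abs _ _).trans ((sum_le_sum (g := fun _ => (1 : ℝ)) fun p _ => J_abs n p).trans ?_)
    simp
  -- covering
  have hcover : G ⊆
      (range (I + 1)).biUnion (fun i => (A ×ˢ A').filter (fun z : (ℤ × ℤ) × (ℤ × ℤ) =>
        η / 2 * (P i).card ≤ |∑ p ∈ P i, J (D * dt z.1 z.2) p|)) := by
    intro z hz
    obtain ⟨hzA, y, hy, hbad⟩ := hG z hz
    have hmono : N ≤ π y := Nat.monotone_primeCounting hy.1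
    set i : ℕ := (π y - N) / h with hi
    have hi1 : i * h ≤ π y - N := Nat.div_mul_le_self _ _
    have hi2 : π y - N < i * h + h := by
      have := Nat.lt_div_mul_add (a := π y - N) hh0
      exact this
    have hπ2 : π y ≤ π (2 * Y) := Nat.monotone_primeCounting hy.2
    have hiI : i < I + 1 := by
      have h1 : (i : ℝ) * h ≤ 12 * N := by
        have h2 : ((i * h : ℕ) : ℝ) ≤ (π y : ℝ) := by exact_mod_cast hi1.trans (Nat.sub_le _ _)
        have h3 : (π y : ℝ) ≤ (π (2 * Y) : ℝ) := by exact_mod_cast hπ2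
        push_cast at h2
        linarith
      have h4 : (i : ℝ) * (η / 8 * N) ≤ 12 * N := (mul_le_mul_of_nonneg_left hh1 (Nat.cast_nonneg _)).trans h1
      have h5 : (i : ℝ) * η ≤ 96 := by
        have : (i : ℝ) * η * N ≤ 96 * N := by nlinarith
        exact le_of_mul_le_mul_right this hNpos
      have h6 : (i : ℝ) ≤ 96 / η := by rw [le_div_iff₀ hη]; exact h5
      have h7 : (i : ℝ) ≤ I := h6.trans hI
      have : i ≤ I := by exact_mod_cast h7
      omega
    rw [mem_biUnion]
    refine ⟨i, mem_range.2 hiI, ?_⟩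
    rw [mem_filter]
    refine ⟨hzA, ?_⟩
    -- compare `g i` and `y`
    have hgi := hg1 i
    have hle : N + i * h ≤ π y := by omega
    have hgy : π (g i) = N + i * h ∨ (y ≤ g i) := by
      by_cases hyg : y ≤ g i
      · right; exact hyg
      · left
        push Not at hyg
        refine le_antisymm hgi.1 ?_
        by_contra hlt
        push Not at hlt
        have h1 : π (g i + 1) ≤ π (g i) + 1 := by
          rw [← Nat.primesLE_card_eq_primeCounting, ← Nat.primesLE_card_eq_primeCounting]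
          have : Nat.primesLE (g i + 1) ⊆ insert (g i + 1) (Nat.primesLE (g i)) := by
            intro p hp
            rw [Nat.mem_primesLE] at hp
            rw [mem_insert, Nat.mem_primesLE]
            rcases Nat.lt_or_ge (g i) p with h2 | h2
            · left; omega
            · right; exact ⟨h2, hp.2⟩
          exact (card_le_card this).trans (card_insert_le _ _)
        have h2 : g i + 1 ≤ g i := Nat.le_findGreatest (P := fun y => π y ≤ N + i * h) (by omega) (by omega)
        omega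
    have hdiff : |SJ (D * dt z.1 z.2) y - SJ (D * dt z.1 z.2) (g i)| ≤ h := by
      rcases hgy with hgy | hgy
      · by_cases hyg : y ≤ g i
        · have h1 : π y = π (g i) := le_antisymm (Nat.monotone_primeCounting hyg) (by omega)
          have h2 : Nat.primesLE y = Nat.primesLE (g i) := by
            apply eq_of_subset_of_card_le (Nat.primesLE_mono hyg)
            rw [Nat.primesLE_card_eq_primeCounting, Nat.primesLE_card_eq_primeCounting, h1]
          rw [SJ, SJ, h2, sub_self, abs_zero]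
          exact Nat.cast_nonneg _
        · push Not at hyg
          have h1 : Nat.primesLE (g i) ⊆ Nat.primesLE y := Nat.primesLE_mono hyg.le
          have h2 : SJ (D * dt z.1 z.2) y - SJ (D * dt z.1 z.2) (g i) =
              ∑ p ∈ Nat.primesLE y \ Nat.primesLE (g i), J (D * dt z.1 z.2) p := by
            rw [SJ, SJ, ← sum_sdiff h1]; ring
          rw [h2]
          refine (habs _ _).trans ?_
          rw [card_sdiff_of_subset h1, Nat.primesLE_card_eq_primeCounting, Nat.primesLE_card_eq_primeCounting]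
          have : π y - π (g i) ≤ h := by omega
          exact_mod_cast this
      · have h1 : π y = π (g i) := le_antisymm (Nat.monotone_primeCounting hgy) (by omega)
        have h2 : Nat.primesLE y = Nat.primesLE (g i) := by
          apply eq_of_subset_of_card_le (Nat.primesLE_mono hgy)
          rw [Nat.primesLE_card_eq_primeCounting, Nat.primesLE_card_eq_primeCounting, h1]
        rw [SJ, SJ, h2, sub_self, abs_zero]
        exact Nat.cast_nonneg _
    have hNy : (N : ℝ) ≤ (π y : ℝ) := by exact_mod_cast hmono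
    have hgy' : ((π (g i) : ℕ) : ℝ) ≤ (π y : ℝ) := by
      have : π (g i) ≤ π y := by omega
      exact_mod_cast this
    have hPi : ((P i).card : ℝ) ≤ (π y : ℝ) := by
      have h1 := hcard i
      have h2 : (0 : ℝ) ≤ small.card := Nat.cast_nonneg _
      linarith
    have h3 := hsplit i (D * dt z.1 z.2)
    have h4 := habs small (D * dt z.1 z.2)
    have h5 : |SJ (D * dt z.1 z.2) y| ≤ |∑ p ∈ P i, J (D * dt z.1 z.2) p| + small.card + h := by
      have e : SJ (D * dt z.1 z.2) y = ∑ p ∈ P i, J (D * dt z.1 z.2) p + ∑ p ∈ small, J (D * dt z.1 z.2) p +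
          (SJ (D * dt z.1 z.2) y - SJ (D * dt z.1 z.2) (g i)) := by rw [← h3]; ring
      rw [e]
      refine (abs_add_le _ _).trans (add_le_add ((abs_add_le _ _).trans (by linarith)) hdiff)
    have h6 : η / 2 * (P i).card ≤ η / 2 * (π y : ℝ) := mul_le_mul_of_nonneg_left hPi (by linarith)
    have h7 : η / 8 * N + η / 4 * N ≤ η / 2 * (π y : ℝ) := by
      have : η * N ≤ η * (π y : ℝ) := mul_le_mul_of_nonneg_left hNy hη.le
      linarith [mul_pos hη hNpos]
    linarith
  -- each grid point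
  have heach : ∀ i ∈ range (I + 1), (((A ×ˢ A').filter (fun z : (ℤ × ℤ) × (ℤ × ℤ) =>
        η / 2 * (P i).card ≤ |∑ p ∈ P i, J (D * dt z.1 z.2) p|)).card : ℝ) ≤
      C * 1152 ^ k * (Real.log X ^ 2 / Y) ^ k * (A.card * A'.card) := by
    intro i _
    have hgi := hg1 i
    have hgN : (N : ℝ) ≤ ((π (g i) : ℕ) : ℝ) := by exact_mod_cast Nat.monotone_primeCounting hgi.2.1
    have hPN : (N : ℝ) / 2 ≤ (P i).card := by
      have h1 := hcard i
      have h2 : η / 8 * (N : ℝ) ≤ N / 8 := by nlinarith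
      linarith
    have hPpos : (0 : ℝ) < (P i).card := by linarith
    have hPne : (P i).Nonempty := card_pos.1 (by exact_mod_cast hPpos)
    have hPY : ((P i).card : ℝ) ≤ Y := by
      have h1 := hcard i
      have h2 : ((π (g i) : ℕ) : ℝ) ≤ (π (2 * Y) : ℝ) := by exact_mod_cast Nat.monotone_primeCounting hgi.2.2
      have h3 : (0 : ℝ) ≤ small.card := Nat.cast_nonneg _
      linarith
    have hPp : ∀ p ∈ P i, p.Prime ∧ Nat.sqrt Y < p := by
      intro p hp
      rw [hPd] at hp
      simp only [mem_filter, Nat.mem_primesLE] at hp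
      exact ⟨hp.1.2, hp.2⟩
    have hs2 : 2 ≤ Nat.sqrt Y := by
      rw [Nat.le_sqrt']; omega
    have h1 := hex (P i) (2 * Y) W A A' D hPne ?_ hW1 ?_ ?_ ?_ ?_
    · refine h1.trans ?_
      have hAA : (0 : ℝ) ≤ A.card * A'.card := by positivity
      refine mul_le_mul_of_nonneg_right ?_ hAA
      rw [show C * 1152 ^ k * (Real.log X ^ 2 / (Y : ℝ)) ^ k = C * (1152 * (Real.log X ^ 2 / Y)) ^ k by rw [mul_pow]; ring]
      refine mul_le_mul_of_nonneg_left (pow_le_pow_left₀ (by positivity) ?_ _) hC.le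
      rw [div_le_iff₀ (by positivity)]
      have h2 : (Y : ℝ) / (4 * Real.log Y) ≤ (P i).card := by
        refine le_trans ?_ hPN
        have : (Y : ℝ) / (4 * Real.log Y) = (Y / (2 * Real.log Y)) / 2 := by field_simp; norm_num
        rw [this]
        linarith
      have h3 : ((Y : ℝ) / (4 * Real.log Y)) ^ 2 ≤ ((P i).card : ℝ) ^ 2 := pow_le_pow_left₀ (by positivity) h2 2
      have h4 : 2 * (Y : ℝ) * W ^ 2 = 1152 * (Real.log X ^ 2 / Y) * (Y / (4 * Real.log Y)) ^ 2 := by
        rw [hW]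
        field_simp
        ring
      rw [h4]
      exact mul_le_mul_of_nonneg_left h3 (by positivity)
    · intro p hp
      have h2 := hPp p hp
      refine ⟨h2.1, by omega, ?_⟩
      have h3 : p ≤ 2 * Y := by
        have hp' := hp
        rw [hPd] at hp'
        simp only [mem_filter, Nat.mem_primesLE] at hp'
        omega
      exact_mod_cast h3
    · intro a ha a' ha' hne
      exact (few_large Y X hY4 (P i) hPp _ (hA a ha a' ha' hne).1 (hA a ha a' ha' hne).2).trans hW2
    · intro a ha a' ha' hne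
      exact (few_large Y X hY4 (P i) hPp _ (hA' a ha a' ha' hne).1 (hA' a ha a' ha' hne).2).trans hW2
    · exact (pow_le_pow_left₀ hPpos.le hPY _).trans hcA
    · exact (pow_le_pow_left₀ hPpos.le hPY _).trans hcA'
  have h8 := card_le_card hcover
  have h9 : (G.card : ℝ) ≤
      ∑ i ∈ range (I + 1), (((A ×ˢ A').filter (fun z : (ℤ × ℤ) × (ℤ × ℤ) =>
        η / 2 * (P i).card ≤ |∑ p ∈ P i, J (D * dt z.1 z.2) p|)).card : ℝ) := by
    exact_mod_cast h8.trans card_biUnion_le
  refine h9.trans ((sum_le_sum heach).trans ?_)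
  rw [sum_const, card_range, nsmul_eq_mul]
  apply le_of_eq
  push_cast
  ring

end Pool.Agent.V8H62.DT
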