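import Pool.Agent.V8H62.DT.D4
import Pool.Agent.R345.SS6

set_option autoImplicit false

/-! Split primes in the quadratic fields given by determinants (after `Pool.Agent.R345.SS6`). -/

namespace Pool.Agent.V8H62.DT

open Finset Filter Pool.Agent.R345.SS
open scoped Nat.Prime

theorem split_pairs (k : ℕ) (hk : 1 ≤ k) (η δ : ℝ) (hη : 0 < η) (hη1 : η ≤ 1) (hδ : 0 < δ) : ∃ C : ℝ, 0 < C ∧
    ∀ (X H : ℕ) (D : ℤ) (A A' : Finset (ℤ × ℤ)) (L : ℝ), 2 ≤ X → 2 ≤ H → Ind X A → Ind X A' →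
      (∀ a ∈ A, ∀ a' ∈ A', |D * dt a a'| ≤ H) → Real.log H ^ (1 + δ) ≤ L →
      ∀ G : Finset ((ℤ × ℤ) × (ℤ × ℤ)), (∀ z ∈ G, z ∈ A ×ˢ A' ∧ D * dt z.1 z.2 ≠ 0 ∧ ∃ d : ℤ, Fund d ∧ IsSquare (D * dt z.1 z.2 * d) ∧
        ∃ y : ℕ, L ≤ y ∧ (y : ℝ) ^ (2 * k) ≤ A.card ∧ (y : ℝ) ^ (2 * k) ≤ A'.card ∧
          ¬ |((Spl d y).card : ℝ) - (π y : ℝ) / 2| ≤ η * (π y : ℝ)) →
      (G.card : ℝ) ≤ C * (Real.log X ^ 2 / L) ^ k * (A.card * A'.card) := by
  classical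
  obtain ⟨C1, hC1, Y0, hY04, hdy⟩ := dyadic k hk η hη hη1
  obtain ⟨Y2, hY24, hpi⟩ := pi_facts 1 one_pos
  -- the numerical condition
  have hnum : ∃ y1 : ℝ, ∀ y : ℝ, y1 ≤ y → 36 * y ^ (1 / (1 + δ)) * Real.log y ≤ η * y := by
    have hlt : 1 / (1 + δ) < 1 := by rw [div_lt_one (by linarith)]; linarith
    have h := (isLittleO_log_rpow_atTop (show (0 : ℝ) < 1 - 1 / (1 + δ) by linarith)).def (show (0 : ℝ) < η / 36 by positivity)
    obtain ⟨y1, hy1⟩ := eventually_atTop.1 (h.and (eventually_ge_atTop (1 : ℝ)))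
    refine ⟨y1, fun y hy => ?_⟩
    obtain ⟨h1, h2⟩ := hy1 y hy
    have hy0 : (0 : ℝ) < y := by linarith
    rw [Real.norm_of_nonneg (Real.log_nonneg h2), Real.norm_of_nonneg (by positivity)] at h1
    have h3 : 0 < y ^ (1 / (1 + δ)) := Real.rpow_pos_of_pos hy0 _
    calc 36 * y ^ (1 / (1 + δ)) * Real.log y ≤ 36 * y ^ (1 / (1 + δ)) * (η / 36 * y ^ (1 - 1 / (1 + δ))) :=
          mul_le_mul_of_nonneg_left h1 (by positivity)
      _ = η * (y ^ (1 / (1 + δ)) * y ^ (1 - 1 / (1 + δ))) := by ring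
      _ = η * y := by rw [← Real.rpow_add hy0]; norm_num
  obtain ⟨y1, hy1⟩ := hnum
  obtain ⟨Y1, hY1⟩ : ∃ Y1 : ℕ, Y1 = max (max Y0 Y2) ⌈y1⌉₊ := ⟨_, rfl⟩
  have hY10 : Y0 ≤ Y1 := by rw [hY1]; exact (le_max_left _ _).trans (le_max_left _ _)
  have hY12 : Y2 ≤ Y1 := by rw [hY1]; exact (le_max_right _ _).trans (le_max_left _ _)
  have hY1y : y1 ≤ Y1 := (Nat.le_ceil y1).trans (by rw [hY1]; exact_mod_cast le_max_right _ _)
  have hY1pos : (0 : ℝ) < Y1 := by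
    have : 4 ≤ Y1 := hY04.trans hY10
    have : (4 : ℝ) ≤ Y1 := by exact_mod_cast this
    linarith
  have hl2 : (0 : ℝ) < Real.log 2 := Real.log_pos (by norm_num)
  refine ⟨(Y1 / Real.log 2 ^ 2) ^ k + 2 * C1, by positivity, ?_⟩
  intro X H D A A' L hX hH hA hA' hDH hL G hG
  have hHr : (2 : ℝ) ≤ H := by exact_mod_cast hH
  have hXr : (2 : ℝ) ≤ X := by exact_mod_cast hX
  have hlH : 0 < Real.log H := Real.log_pos (by linarith)
  have hL0 : 0 < L := lt_of_lt_of_le (Real.rpow_pos_of_pos hlH _) hL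
  have hlX : Real.log 2 ≤ Real.log X := Real.log_le_log (by norm_num) hXr
  have hAA : (0 : ℝ) ≤ A.card * A'.card := by positivity
  have hZ0 : 0 ≤ (Real.log X ^ 2 / L) ^ k := by positivity
  rcases lt_or_ge L (Y1 : ℝ) with hLY | hLY
  · -- small L
    have h1 : (G.card : ℝ) ≤ A.card * A'.card := by
      have h2 : G ⊆ A ×ˢ A' := fun z hz => (hG z hz).1
      have h3 := card_le_card h2
      rw [card_product] at h3
      exact_mod_cast h3
    refine h1.trans ?_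
    have h2 : 1 ≤ (Y1 / Real.log 2 ^ 2 : ℝ) ^ k * (Real.log X ^ 2 / L) ^ k := by
      rw [← mul_pow]
      apply one_le_pow₀
      rw [div_mul_div_comm, le_div_iff₀ (by positivity), one_mul]
      have h4 : Real.log 2 ^ 2 ≤ Real.log X ^ 2 := pow_le_pow_left₀ hl2.le hlX 2
      calc Real.log 2 ^ 2 * L ≤ Real.log X ^ 2 * Y1 := mul_le_mul h4 hLY.le hL0.le (by positivity)
        _ = _ := by ring
    have h3 : 1 ≤ ((Y1 / Real.log 2 ^ 2 : ℝ) ^ k + 2 * C1) * (Real.log X ^ 2 / L) ^ k := by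
      rw [add_mul]
      have : 0 ≤ 2 * C1 * (Real.log X ^ 2 / L) ^ k := by positivity
      linarith
    calc (A.card * A'.card : ℝ) = 1 * (A.card * A'.card) := (one_mul _).symm
      _ ≤ _ := mul_le_mul_of_nonneg_right h3 hAA
  -- large L
  set Y : ℕ := ⌈L⌉₊ with hYdef
  have hLYr : L ≤ Y := Nat.le_ceil L
  have hY1Y : Y1 ≤ Y := by
    have : (Y1 : ℝ) ≤ Y := hLY.trans hLYr
    exact_mod_cast this
  have hYpos : 0 < Y := by
    have : 4 ≤ Y := (hY04.trans hY10).trans hY1Y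
    omega
  have hYr : (0 : ℝ) < Y := by exact_mod_cast hYpos
  -- each bad pair has a large sum
  have hbad : ∀ z ∈ G, ∃ y : ℕ, Y ≤ y ∧ (y : ℝ) ^ (2 * k) ≤ A.card ∧ (y : ℝ) ^ (2 * k) ≤ A'.card ∧
      η * (π y : ℝ) ≤ |SJ (D * dt z.1 z.2) y| := by
    intro z hz
    obtain ⟨hzA, hn0, d, hd, hsq, y, hLy, hyA, hyA', hbad⟩ := hG z hz
    have hYy : Y ≤ y := Nat.ceil_le.2 hLy
    refine ⟨y, hYy, hyA, hyA', ?_⟩
    by_contra hlt
    push Not at hlt
    apply hbad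
    rw [mem_product] at hzA
    have h1 := from_symbols _ d hn0 H hH (hDH z.1 hzA.1 z.2 hzA.2) hd hsq y
    have h2 : (y : ℝ) / (2 * Real.log y) ≤ (π y : ℝ) := (hpi y (by omega)).1
    have hy1' : (Y1 : ℝ) ≤ y := by exact_mod_cast hY1Y.trans hYy
    have hyr : (4 : ℝ) ≤ y := by
      have : 4 ≤ y := ((hY04.trans hY10).trans hY1Y).trans hYy
      exact_mod_cast this
    have h3 := hy1 y (hY1y.trans hy1')
    have hly : 0 < Real.log y := Real.log_pos (by linarith)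
    have h4 : Real.log H ≤ (y : ℝ) ^ (1 / (1 + δ)) := by
      have h5 : Real.log H ^ (1 + δ) ≤ y := hL.trans hLy
      have h6 := Real.rpow_le_rpow (by positivity) h5 (show 0 ≤ 1 / (1 + δ) by positivity)
      rwa [← Real.rpow_mul hlH.le, mul_one_div_cancel (by linarith), Real.rpow_one] at h6
    have h7 : 9 * Real.log H ≤ η / 2 * (π y : ℝ) := by
      have h8 : 36 * (y : ℝ) ^ (1 / (1 + δ)) ≤ η * y / Real.log y := by
        rw [le_div_iff₀ hly]; exact h3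
      have h9 : η * y / Real.log y = 2 * η * (y / (2 * Real.log y)) := by
        field_simp
      have h10 : 2 * η * ((y : ℝ) / (2 * Real.log y)) ≤ 2 * η * (π y : ℝ) := mul_le_mul_of_nonneg_left h2 (by positivity)
      linarith
    linarith
  -- the dyadic classes
  set T : ℕ := A.card + 1 with hT
  set Gt : ℕ → Finset ((ℤ × ℤ) × (ℤ × ℤ)) := fun t => G.filter (fun z => ∃ y : ℕ, (2 ^ t * Y ≤ y ∧ y ≤ 2 * (2 ^ t * Y)) ∧
    (y : ℝ) ^ (2 * k) ≤ A.card ∧ (y : ℝ) ^ (2 * k) ≤ A'.card ∧ η * (π y : ℝ) ≤ |SJ (D * dt z.1 z.2) y|) with hGt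
  have hcover : G ⊆ (range T).biUnion Gt := by
    intro z hz
    obtain ⟨y, hYy, hyA, hyA', hlarge⟩ := hbad z hz
    rw [mem_biUnion]
    have hy1n : 1 ≤ y := by omega
    have hyA1 : y ≤ A.card := by
      have h1 : (y : ℝ) ≤ (y : ℝ) ^ (2 * k) := by
        have : (1 : ℝ) ≤ y := by exact_mod_cast hy1n
        exact le_self_pow₀ this (by omega)
      exact_mod_cast h1.trans hyA
    have hq : y / Y ≠ 0 := by
      have := Nat.div_pos hYy hYpos
      omega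
    refine ⟨Nat.log 2 (y / Y), ?_, ?_⟩
    · rw [mem_range, hT]
      have h1 : Nat.log 2 (y / Y) ≤ y / Y := Nat.log_le_self _ _
      have h2 := Nat.div_le_self y Y
      omega
    · rw [hGt]
      simp only [mem_filter]
      refine ⟨hz, y, ⟨?_, ?_⟩, hyA, hyA', hlarge⟩
      · have h1 := Nat.pow_log_le_self 2 hq
        calc 2 ^ Nat.log 2 (y / Y) * Y ≤ y / Y * Y := Nat.mul_le_mul_right _ h1
          _ ≤ y := Nat.div_mul_le_self _ _
      · have h1 := Nat.lt_pow_succ_log_self (b := 2) (by norm_num) (y / Y)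
        have h2 : y < (y / Y + 1) * Y := by
          have := Nat.lt_div_mul_add (a := y) hYpos
          rw [add_mul, one_mul]; exact this
        have h3 : (y / Y + 1) * Y ≤ 2 ^ (Nat.log 2 (y / Y) + 1) * Y := Nat.mul_le_mul_right _ h1
        have h4 : 2 ^ (Nat.log 2 (y / Y) + 1) * Y = 2 * (2 ^ Nat.log 2 (y / Y) * Y) := by
          rw [pow_succ]; ring
        omega
  have heach : ∀ t ∈ range T, ((Gt t).card : ℝ) ≤ (1 / 2) ^ t * (C1 * (Real.log X ^ 2 / L) ^ k * (A.card * A'.card)) := by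
    intro t _
    rcases (Gt t).eq_empty_or_nonempty with he | ⟨z0, hz0⟩
    · rw [he, card_empty, Nat.cast_zero]
      positivity
    rw [hGt] at hz0
    simp only [mem_filter] at hz0
    obtain ⟨-, y0, ⟨h1, -⟩, h2, h3, -⟩ := hz0
    have hle : (((2 ^ t * Y : ℕ) : ℝ)) ^ (2 * k) ≤ (y0 : ℝ) ^ (2 * k) :=
      pow_le_pow_left₀ (Nat.cast_nonneg _) (by exact_mod_cast h1) _
    have h2t : 1 ≤ 2 ^ t := Nat.one_le_two_pow
    have h4 := hdy (2 ^ t * Y) X A A' D hX (by nlinarith) hA hA' (hle.trans h2) (hle.trans h3) (Gt t) (by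
      intro z hz
      rw [hGt] at hz
      simp only [mem_filter] at hz
      obtain ⟨hz1, y, hy, -, -, hy3⟩ := hz
      exact ⟨(hG z hz1).1, y, hy, hy3⟩)
    refine h4.trans ?_
    have h5 : (Real.log X ^ 2 / ((2 ^ t * Y : ℕ) : ℝ)) ^ k ≤ (1 / 2) ^ t * (Real.log X ^ 2 / L) ^ k := by
      have h6 : Real.log X ^ 2 / ((2 ^ t * Y : ℕ) : ℝ) ≤ (1 / 2) ^ t * (Real.log X ^ 2 / L) := by
        push_cast
        have h7 : Real.log X ^ 2 / (2 ^ t * (Y : ℝ)) = (1 / 2) ^ t * (Real.log X ^ 2 / Y) := by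
          rw [one_div, inv_pow]; field_simp
        rw [h7]
        refine mul_le_mul_of_nonneg_left ?_ (by positivity)
        exact div_le_div_of_nonneg_left (by positivity) hL0 hLYr
      refine (pow_le_pow_left₀ (by positivity) h6 k).trans ?_
      rw [mul_pow]
      refine mul_le_mul_of_nonneg_right ?_ hZ0
      rw [← pow_mul]
      refine pow_le_pow_of_le_one (by norm_num) (by norm_num) ?_
      nlinarith
    calc C1 * (Real.log X ^ 2 / ((2 ^ t * Y : ℕ) : ℝ)) ^ k * (A.card * A'.card) ≤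
        C1 * ((1 / 2) ^ t * (Real.log X ^ 2 / L) ^ k) * (A.card * A'.card) :=
          mul_le_mul_of_nonneg_right (mul_le_mul_of_nonneg_left h5 hC1.le) hAA
      _ = _ := by ring
  have h6 : (G.card : ℝ) ≤ ∑ t ∈ range T, ((Gt t).card : ℝ) := by
    exact_mod_cast (card_le_card hcover).trans card_biUnion_le
  refine h6.trans ((sum_le_sum heach).trans ?_)
  rw [← sum_mul]
  have h7 : ∑ t ∈ range T, ((1 : ℝ) / 2) ^ t ≤ 2 := by
    have h8 := geom_sum_eq (show (1 : ℝ) / 2 ≠ 1 by norm_num) T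
    rw [h8]
    have h9 : (0 : ℝ) < (1 / 2) ^ T := by positivity
    rw [div_le_iff_of_neg (by norm_num)]
    linarith
  have h8 : 0 ≤ C1 * (Real.log X ^ 2 / L) ^ k * (A.card * A'.card) := by positivity
  calc (∑ t ∈ range T, ((1 : ℝ) / 2) ^ t) * (C1 * (Real.log X ^ 2 / L) ^ k * (A.card * A'.card)) ≤
      2 * (C1 * (Real.log X ^ 2 / L) ^ k * (A.card * A'.card)) := mul_le_mul_of_nonneg_right h7 h8
    _ = 2 * C1 * (Real.log X ^ 2 / L) ^ k * (A.card * A'.card) := by ring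
    _ ≤ ((Y1 / Real.log 2 ^ 2 : ℝ) ^ k + 2 * C1) * (Real.log X ^ 2 / L) ^ k * (A.card * A'.card) := by
        refine mul_le_mul_of_nonneg_right (mul_le_mul_of_nonneg_right ?_ hZ0) hAA
        have : (0 : ℝ) ≤ (Y1 / Real.log 2 ^ 2 : ℝ) ^ k := by positivity
        linarith

theorem threshold_pairs (k : ℕ) (hk : 1 ≤ k) (η c : ℝ) (hη : 0 < η) (hη1 : η ≤ 1) (hc : 0 < c) (hc1 : c ≤ 1) :
    ∃ C : ℝ, 0 < C ∧ ∃ H0 : ℕ, 3 ≤ H0 ∧
    ∀ (X H : ℕ) (D : ℤ) (A A' : Finset (ℤ × ℤ)), 2 ≤ X → H0 ≤ H → Ind X A → Ind X A' →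
      (∀ a ∈ A, ∀ a' ∈ A', |D * dt a a'| ≤ H) → Real.log H ^ (6 * k) ≤ A.card → Real.log H ^ (6 * k) ≤ A'.card →
      ∀ G : Finset ((ℤ × ℤ) × (ℤ × ℤ)), (∀ z ∈ G, z ∈ A ×ˢ A' ∧ D * dt z.1 z.2 ≠ 0 ∧ ∃ d : ℤ, Fund d ∧ IsSquare (D * dt z.1 z.2 * d) ∧
        (H : ℝ) ^ c ≤ |(d : ℝ)| ∧
          ¬ |2 * ((Spl d (⌈thr d⌉₊ - 1)).card : ℝ) - (π (⌈thr d⌉₊ - 1) : ℝ)| ≤ η * (π (⌈thr d⌉₊ - 1) : ℝ)) →
      (G.card : ℝ) ≤ C * (Real.log X / (Real.log H * Real.log (Real.log H))) ^ (2 * k) * (A.card * A'.card) := by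
  obtain ⟨C, hC, h⟩ := split_pairs k hk (η / 2) (1 / 2) (by linarith) (by linarith) (by norm_num)
  obtain ⟨l0, hl03, hl0⟩ := num_thr c hc hc1
  obtain ⟨H0, hH0⟩ : ∃ H0 : ℕ, H0 = max 3 ⌈Real.exp l0⌉₊ := ⟨_, rfl⟩
  refine ⟨C * (16 / c ^ 2) ^ k, by positivity, H0, by rw [hH0]; exact le_max_left _ _, ?_⟩
  intro X H D A A' hX hH hA hA' hDH hcA hcA' G hG
  have hH3 : 3 ≤ H := by rw [hH0] at hH; exact (le_max_left _ _).trans hH
  have hHr : (3 : ℝ) ≤ H := by exact_mod_cast hH3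
  have hexp : Real.exp l0 ≤ H := by
    refine (Nat.le_ceil _).trans ?_
    have : ⌈Real.exp l0⌉₊ ≤ H := by rw [hH0] at hH; exact (le_max_right _ _).trans hH
    exact_mod_cast this
  set l : ℝ := Real.log H with hl
  have hll : l0 ≤ l := by
    rw [hl, Real.le_log_iff_exp_le (by linarith)]; exact hexp
  obtain ⟨n1, n2, n3⟩ := hl0 l hll
  have hl3 : 3 ≤ l := hl03.trans hll
  have h1 := h X H D A A' (c ^ 2 / 16 * (l ^ 2 * Real.log l ^ 2)) hX (by omega) hA hA' hDH n1 G ?_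
  · refine h1.trans (le_of_eq ?_)
    have e : Real.log X ^ 2 / (c ^ 2 / 16 * (l ^ 2 * Real.log l ^ 2)) = 16 / c ^ 2 * (Real.log X / (l * Real.log l)) ^ 2 := by
      field_simp
    rw [e, mul_pow (16 / c ^ 2), ← pow_mul]
    ring
  · intro z hz
    obtain ⟨hzA, hn0, d, hd, hsq, hdc, hbad⟩ := hG z hz
    refine ⟨hzA, hn0, d, hd, hsq, ⌈thr d⌉₊ - 1, ?_⟩
    have hzA' := mem_product.1 hzA
    have hdsize : |(d : ℝ)| ≤ 4 * H := by
      obtain ⟨w, hw⟩ := hsq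
      have h2 := disc_size _ d w hn0 hw hd
      have h3 : |((D * dt z.1 z.2 : ℤ) : ℝ)| ≤ H := by exact_mod_cast hDH z.1 hzA'.1 z.2 hzA'.2
      linarith
    have hd0 : 0 < |(d : ℝ)| := abs_pos.2 (by exact_mod_cast hd.ne)
    have t1 : c * l ≤ Real.log |(d : ℝ)| := by
      have h2 := Real.log_le_log (by positivity) hdc
      rwa [Real.log_rpow (by linarith)] at h2
    have t2 : Real.log |(d : ℝ)| ≤ 2 * Real.log 2 + l := by
      refine (Real.log_le_log hd0 hdsize).trans (le_of_eq ?_)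
      rw [Real.log_mul (by norm_num) (by linarith), show (4 : ℝ) = 2 ^ 2 by norm_num, Real.log_pow]
      norm_num
      exact hl.symm
    obtain ⟨m1, m2⟩ := n2 _ t1 t2
    have hthr : thr d = Real.log |(d : ℝ)| ^ 2 * Real.log (Real.log |(d : ℝ)|) ^ 2 := rfl
    rw [← hthr] at m1 m2
    have hpos : 0 < thr d := by
      have : 0 ≤ c ^ 2 / 16 * (l ^ 2 * Real.log l ^ 2) := by positivity
      linarith
    have hceil : 0 < ⌈thr d⌉₊ := Nat.ceil_pos.2 hpos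
    have hcast : ((⌈thr d⌉₊ - 1 : ℕ) : ℝ) = (⌈thr d⌉₊ : ℝ) - 1 := by
      rw [Nat.cast_sub (by omega)]; norm_num
    have hc1' := Nat.le_ceil (thr d)
    have hc2' := Nat.ceil_lt_add_one hpos.le
    have hyle : ((⌈thr d⌉₊ - 1 : ℕ) : ℝ) ≤ l ^ 3 := by rw [hcast]; linarith
    have hpow : ((⌈thr d⌉₊ - 1 : ℕ) : ℝ) ^ (2 * k) ≤ l ^ (6 * k) := by
      refine (pow_le_pow_left₀ (Nat.cast_nonneg _) hyle _).trans (le_of_eq ?_)
      rw [← pow_mul]; congr 1; ring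
    refine ⟨?_, hpow.trans hcA, hpow.trans hcA', ?_⟩
    · rw [hcast]; linarith
    · intro h2
      apply hbad
      have h3 : 2 * ((Spl d (⌈thr d⌉₊ - 1)).card : ℝ) - (π (⌈thr d⌉₊ - 1) : ℝ) =
          2 * (((Spl d (⌈thr d⌉₊ - 1)).card : ℝ) - (π (⌈thr d⌉₊ - 1) : ℝ) / 2) := by ring
      rw [h3, abs_mul, abs_two]
      linarith

end Pool.Agent.V8H62.DT
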