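import Pool.Agent.V8H62.DT.D6

set_option autoImplicit false

/-! Integer matrices of rank two: reduction to determinants of integer vectors. -/

namespace Pool.Agent.V8H62.DT

open Finset Filter Pool.Agent.R345.SS
open scoped Nat.Prime

variable {ι κ : Type}

/-- a minor of order two -/
def mi (M : ι → κ → ℤ) (i i' : ι) (j j' : κ) : ℤ := M i j * M i' j' - M i j' * M i' j

theorem mi_abs {M : ι → κ → ℤ} {H : ℕ} (hM : ∀ i j, |M i j| ≤ H) (i i' : ι) (j j' : κ) :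
    |mi M i i' j j'| ≤ 2 * (H : ℤ) ^ 2 := by
  have h1 : ∀ a b : ℤ, |a| ≤ H → |b| ≤ H → |a * b| ≤ (H : ℤ) * H := by
    intro a b ha hb
    rw [abs_mul]
    exact mul_le_mul ha hb (abs_nonneg _) (Int.natCast_nonneg H)
  unfold mi
  refine (abs_sub _ _).trans ?_
  have h2 := h1 _ _ (hM i j) (hM i' j')
  have h3 := h1 _ _ (hM i j') (hM i' j)
  linarith [sq (H : ℤ)]

/-- the vector of a row -/
def ru (M : ι → κ → ℤ) (j₀ j₁ : κ) (i : ι) : ℤ × ℤ := (M i j₀, M i j₁)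

/-- the vector of a column -/
def cv (M : ι → κ → ℤ) (i₀ i₁ : ι) (j₀ j₁ : κ) (j : κ) : ℤ × ℤ := (-mi M i₀ i₁ j₀ j, mi M i₀ i₁ j j₁)

theorem dt_ru (M : ι → κ → ℤ) (j₀ j₁ : κ) (i i' : ι) : dt (ru M j₀ j₁ i) (ru M j₀ j₁ i') = mi M i i' j₀ j₁ := by
  unfold dt ru mi; ring

theorem dt_rc (M : ι → κ → ℤ) (a c : ι → ℚ) (b e : κ → ℚ) (hM : ∀ i j, (M i j : ℚ) = a i * b j + c i * e j)
    (i₀ i₁ : ι) (j₀ j₁ : κ) (i : ι) (j : κ) :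
    dt (ru M j₀ j₁ i) (cv M i₀ i₁ j₀ j₁ j) = mi M i₀ i₁ j₀ j₁ * M i j := by
  have h : ((dt (ru M j₀ j₁ i) (cv M i₀ i₁ j₀ j₁ j) : ℤ) : ℚ) = ((mi M i₀ i₁ j₀ j₁ * M i j : ℤ) : ℚ) := by
    unfold dt ru cv mi
    push_cast
    simp only [hM]
    ring
  exact_mod_cast h

theorem dt_cv (M : ι → κ → ℤ) (a c : ι → ℚ) (b e : κ → ℚ) (hM : ∀ i j, (M i j : ℚ) = a i * b j + c i * e j)
    (i₀ i₁ : ι) (j₀ j₁ : κ) (j j' : κ) :
    dt (cv M i₀ i₁ j₀ j₁ j) (cv M i₀ i₁ j₀ j₁ j') = mi M i₀ i₁ j₀ j₁ * mi M i₀ i₁ j j' := by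
  have h : ((dt (cv M i₀ i₁ j₀ j₁ j) (cv M i₀ i₁ j₀ j₁ j') : ℤ) : ℚ) =
      ((mi M i₀ i₁ j₀ j₁ * mi M i₀ i₁ j j' : ℤ) : ℚ) := by
    unfold dt cv mi
    push_cast
    simp only [hM]
    ring
  exact_mod_cast h

/-- the reduction -/
theorem reduce [Fintype ι] [Fintype κ] [DecidableEq ι] [DecidableEq κ] (M : ι → κ → ℤ) (H : ℕ) (hH : 1 ≤ H)
    (hMH : ∀ i j, |M i j| ≤ H)
    (a c : ι → ℚ) (b e : κ → ℚ) (hM : ∀ i j, (M i j : ℚ) = a i * b j + c i * e j)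
    (hmi : ∀ i i' j j', i ≠ i' → j ≠ j' → mi M i i' j j' ≠ 0)
    (hι : 2 ≤ Fintype.card ι) (hκ : 2 ≤ Fintype.card κ) :
    ∃ (D : ℤ) (U : ι → ℤ × ℤ) (V : κ → ℤ × ℤ), D ≠ 0 ∧ Function.Injective U ∧ Function.Injective V ∧
      Ind (4 * H ^ 4) (univ.image U) ∧ Ind (4 * H ^ 4) (univ.image V) ∧
      ∀ i j, dt (U i) (V j) = D * M i j ∧ |D * dt (U i) (V j)| ≤ ((4 * H ^ 5 : ℕ) : ℤ) := by
  obtain ⟨i₀, i₁, hi⟩ := Fintype.one_lt_card_iff.1 (show 1 < Fintype.card ι by omega)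
  obtain ⟨j₀, j₁, hj⟩ := Fintype.one_lt_card_iff.1 (show 1 < Fintype.card κ by omega)
  have hHz : (1 : ℤ) ≤ H := by exact_mod_cast hH
  have hD := hmi i₀ i₁ j₀ j₁ hi hj
  have hsz : ∀ i i' j j', |mi M i i' j j'| ≤ 2 * (H : ℤ) ^ 2 := mi_abs hMH
  have hU : ∀ i i', i ≠ i' → dt (ru M j₀ j₁ i) (ru M j₀ j₁ i') ≠ 0 := by
    intro i i' h
    rw [dt_ru]
    exact hmi i i' j₀ j₁ h hj
  have hV : ∀ j j', j ≠ j' → dt (cv M i₀ i₁ j₀ j₁ j) (cv M i₀ i₁ j₀ j₁ j') ≠ 0 := by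
    intro j j' h
    rw [dt_cv M a c b e hM]
    exact mul_ne_zero hD (hmi i₀ i₁ j j' hi h)
  refine ⟨mi M i₀ i₁ j₀ j₁, ru M j₀ j₁, cv M i₀ i₁ j₀ j₁, hD, ?_, ?_, ?_, ?_, ?_⟩
  · intro i i' h
    by_contra hne
    exact hU i i' hne (by rw [h, dt_self])
  · intro j j' h
    by_contra hne
    exact hV j j' hne (by rw [h, dt_self])
  · intro x hx x' hx' hne
    obtain ⟨i, -, rfl⟩ := mem_image.1 hx
    obtain ⟨i', -, rfl⟩ := mem_image.1 hx'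
    refine ⟨hU i i' (fun h => hne (by rw [h])), ?_⟩
    rw [dt_ru]
    refine (hsz _ _ _ _).trans ?_
    push_cast
    have : (1 : ℤ) ≤ (H : ℤ) ^ 2 := one_le_pow₀ hHz
    nlinarith
  · intro x hx x' hx' hne
    obtain ⟨j, -, rfl⟩ := mem_image.1 hx
    obtain ⟨j', -, rfl⟩ := mem_image.1 hx'
    refine ⟨hV j j' (fun h => hne (by rw [h])), ?_⟩
    rw [dt_cv M a c b e hM, abs_mul]
    push_cast
    calc |mi M i₀ i₁ j₀ j₁| * |mi M i₀ i₁ j j'| ≤ (2 * (H : ℤ) ^ 2) * (2 * (H : ℤ) ^ 2) :=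
          mul_le_mul (hsz _ _ _ _) (hsz _ _ _ _) (abs_nonneg _) (by positivity)
      _ = 4 * (H : ℤ) ^ 4 := by ring
  · intro i j
    have h1 := dt_rc M a c b e hM i₀ i₁ j₀ j₁ i j
    refine ⟨h1, ?_⟩
    rw [h1, ← mul_assoc, abs_mul, abs_mul]
    push_cast
    calc |mi M i₀ i₁ j₀ j₁| * |mi M i₀ i₁ j₀ j₁| * |M i j| ≤ ((2 * (H : ℤ) ^ 2) * (2 * (H : ℤ) ^ 2)) * H :=
          mul_le_mul (mul_le_mul (hsz _ _ _ _) (hsz _ _ _ _) (abs_nonneg _) (by positivity)) (hMH i j) (abs_nonneg _)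
            (by positivity)
      _ = 4 * (H : ℤ) ^ 5 := by ring

end Pool.Agent.V8H62.DT
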