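import Pool.Agent.V8H62.DT.R2

set_option autoImplicit false

/-! Split primes in the quadratic fields given by the entries of an integer matrix of rank two. -/

namespace Pool.Agent.V8H62.DT

open Finset Filter Pool.Agent.R345.SS
open scoped Nat.Prime

/-- `M` is a sum of two rational matrices of rank at most one, and all its minors of order two are not zero -/
def RankTwo {m n : ℕ} (M : Fin m → Fin n → ℤ) : Prop :=
  (∃ (a c : Fin m → ℚ) (b e : Fin n → ℚ), ∀ i j, (M i j : ℚ) = a i * b j + c i * e j) ∧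
    ∀ i i' j j', i ≠ i' → j ≠ j' → M i j * M i' j' - M i j' * M i' j ≠ 0

theorem sq_change {D n d : ℤ} (h : IsSquare (n * d)) : IsSquare (D * (D * n) * d) := by
  obtain ⟨w, hw⟩ := h
  exact ⟨D * w, by linear_combination D ^ 2 * hw⟩

theorem log_bounds {H : ℕ} (hH : 2 ≤ H) :
    Real.log ((4 * H ^ 4 : ℕ) : ℝ) ≤ 6 * Real.log H ∧ Real.log ((4 * H ^ 5 : ℕ) : ℝ) ≤ 7 * Real.log H ∧
      Real.log H ≤ Real.log ((4 * H ^ 5 : ℕ) : ℝ) ∧ Real.log ((4 * H ^ 4 : ℕ) : ℝ) ≤ Real.log ((4 * H ^ 5 : ℕ) : ℝ) := by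
  have hHr : (2 : ℝ) ≤ H := by exact_mod_cast hH
  have h4 : (4 : ℝ) ≤ (H : ℝ) ^ 2 := by nlinarith
  have e4 : (0 : ℝ) < (H : ℝ) ^ 4 := by positivity
  have e5 : (0 : ℝ) < (H : ℝ) ^ 5 := by positivity
  push_cast
  refine ⟨?_, ?_, ?_, ?_⟩
  · have h1 : 4 * (H : ℝ) ^ 4 ≤ (H : ℝ) ^ 6 := by nlinarith
    have h2 := Real.log_le_log (by positivity) h1
    rw [Real.log_pow] at h2
    exact_mod_cast h2
  · have h1 : 4 * (H : ℝ) ^ 5 ≤ (H : ℝ) ^ 7 := by nlinarith
    have h2 := Real.log_le_log (by positivity) h1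
    rw [Real.log_pow] at h2
    exact_mod_cast h2
  · refine Real.log_le_log (by linarith) ?_
    have : (H : ℝ) ≤ (H : ℝ) ^ 5 := le_self_pow₀ (by linarith) (by norm_num)
    linarith
  · refine Real.log_le_log (by positivity) ?_
    have : (H : ℝ) ^ 4 ≤ (H : ℝ) ^ 5 := pow_le_pow_right₀ (by linarith) (by norm_num)
    linarith

theorem image_card {m : ℕ} {U : Fin m → ℤ × ℤ} (hU : Function.Injective U) : (univ.image U).card = m := by
  rw [card_image_of_injective _ hU, card_univ, Fintype.card_fin]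

theorem rank_half (k : ℕ) (hk : 1 ≤ k) (η : ℝ) (hη : 0 < η) (hη1 : η ≤ 1) : ∃ C : ℝ, 0 < C ∧
    ∀ (H m n : ℕ) (M : Fin m → Fin n → ℤ) (L : ℝ), 2 ≤ H → (∀ i j, |M i j| ≤ H) → RankTwo M → 0 < L →
      ∀ G : Finset (Fin m × Fin n), (∀ z ∈ G, M z.1 z.2 ≠ 0 ∧ ∃ d : ℤ, Fund d ∧ IsSquare (M z.1 z.2 * d) ∧
        ∃ y : ℕ, L ≤ y ∧ (y : ℝ) ^ (2 * k) ≤ m ∧ (y : ℝ) ^ (2 * k) ≤ n ∧
          ¬ |((Spl d y).card : ℝ) - (π y : ℝ) / 2| ≤ η * (π y : ℝ)) →
      (G.card : ℝ) ≤ C * (Real.log H ^ 2 / L) ^ k * (m * n) := by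
  classical
  obtain ⟨C, hC, h⟩ := split_pairs k hk η (1 / 2) hη hη1 (by norm_num)
  refine ⟨C * 36 ^ k + 343 ^ k, by positivity, ?_⟩
  intro H m n M L hH hMH hR hL G hG
  obtain ⟨⟨a, c, b, e, hM⟩, hmi⟩ := hR
  have hHr : (2 : ℝ) ≤ H := by exact_mod_cast hH
  have hlH0 : 0 < Real.log H := Real.log_pos (by linarith)
  have hlH2 : 0.69 ≤ Real.log H := by
    have h1 := Real.log_le_log (by norm_num) hHr
    have h2 := Real.log_two_gt_d9
    linarith
  obtain ⟨b1, b2, b3, b4⟩ := log_bounds hH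
  have hmn : (0 : ℝ) ≤ (m : ℝ) * n := by positivity
  have hZ0 : 0 ≤ (Real.log H ^ 2 / L) ^ k := by positivity
  have hL' : 0 < Real.log ((4 * H ^ 5 : ℕ) : ℝ) := by linarith
  rcases lt_or_ge L (Real.log ((4 * H ^ 5 : ℕ) : ℝ) ^ (1 + 1 / 2 : ℝ)) with hlt | hge
  · -- trivial bound
    have h1 : (G.card : ℝ) ≤ m * n := by
      have h2 := card_le_univ G
      rw [Fintype.card_prod, Fintype.card_fin, Fintype.card_fin] at h2
      exact_mod_cast h2
    refine h1.trans ?_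
    have h2 : 1 ≤ (343 : ℝ) ^ k * (Real.log H ^ 2 / L) ^ k := by
      rw [← mul_pow]
      apply one_le_pow₀
      rw [mul_div_assoc', le_div_iff₀ hL, one_mul]
      refine hlt.le.trans ?_
      have h3 : Real.log ((4 * H ^ 5 : ℕ) : ℝ) ^ (1 + 1 / 2 : ℝ) ≤ (7 * Real.log H) ^ (1 + 1 / 2 : ℝ) :=
        Real.rpow_le_rpow hL'.le b2 (by norm_num)
      refine h3.trans ?_
      have h4 : (1 : ℝ) ≤ 7 * Real.log H := by linarith
      have h5 : (7 * Real.log H) ^ (1 + 1 / 2 : ℝ) ≤ (7 * Real.log H) ^ (2 : ℝ) :=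
        Real.rpow_le_rpow_of_exponent_le h4 (by norm_num)
      refine h5.trans ?_
      have h6 : (7 * Real.log H) ^ (2 : ℝ) = 49 * (Real.log H * Real.log H) := by
        rw [Real.rpow_two]; ring
      have h7 : 0 ≤ Real.log H * Real.log H := mul_self_nonneg _
      rw [h6, sq (Real.log (H : ℝ))]
      exact mul_le_mul_of_nonneg_right (by norm_num) h7
    have h3 : 1 ≤ (C * 36 ^ k + 343 ^ k) * (Real.log H ^ 2 / L) ^ k := by
      rw [add_mul]
      have : 0 ≤ C * 36 ^ k * (Real.log H ^ 2 / L) ^ k := by positivity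
      linarith
    calc (m * n : ℝ) = 1 * (m * n) := (one_mul _).symm
      _ ≤ _ := mul_le_mul_of_nonneg_right h3 hmn
  · rcases G.eq_empty_or_nonempty with he | ⟨z0, hz0⟩
    · rw [he, card_empty, Nat.cast_zero]
      positivity
    -- `m, n ≥ 2`
    obtain ⟨-, d0, -, -, y0, hy1, hy2, hy3, -⟩ := hG z0 hz0
    have hy4 : (1 : ℝ) < y0 := by
      refine lt_of_lt_of_le ?_ hy1
      refine lt_of_lt_of_le ?_ hge
      have h1 : (1 : ℝ) < Real.log ((4 * H ^ 5 : ℕ) : ℝ) := by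
        have h2 : (2 : ℝ) ^ 5 ≤ (H : ℝ) ^ 5 := pow_le_pow_left₀ (by norm_num) hHr 5
        have h3 : (2 : ℝ) ^ 2 ≤ ((4 * H ^ 5 : ℕ) : ℝ) := by push_cast; linarith
        have h4 := Real.log_le_log (by norm_num) h3
        rw [Real.log_pow] at h4
        have h5 := Real.log_two_gt_d9
        push_cast at h4 ⊢
        linarith
      exact Real.one_lt_rpow h1 (by norm_num)
    have hy5 : (1 : ℝ) < (y0 : ℝ) ^ (2 * k) := one_lt_pow₀ hy4 (by omega)
    have hm2 : 2 ≤ m := by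
      have : (1 : ℝ) < m := lt_of_lt_of_le hy5 hy2
      exact_mod_cast this
    have hn2 : 2 ≤ n := by
      have : (1 : ℝ) < n := lt_of_lt_of_le hy5 hy3
      exact_mod_cast this
    obtain ⟨D, U, V, hD, hU, hV, hIU, hIV, hUV⟩ := reduce M H (by omega) hMH a c b e hM hmi
      (by rw [Fintype.card_fin]; exact hm2) (by rw [Fintype.card_fin]; exact hn2)
    have hinj : Function.Injective (fun z : Fin m × Fin n => (U z.1, V z.2)) := by
      intro z z' hz
      exact Prod.ext (hU (congrArg Prod.fst hz)) (hV (congrArg Prod.snd hz))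
    have h1 := h (4 * H ^ 4) (4 * H ^ 5) D (univ.image U) (univ.image V) L
      (by have : 1 ≤ H ^ 4 := Nat.one_le_pow _ _ (by omega)
          omega)
      (by have : 1 ≤ H ^ 5 := Nat.one_le_pow _ _ (by omega)
          omega) hIU hIV ?_ hge
      (G.image (fun z : Fin m × Fin n => (U z.1, V z.2))) ?_
    · rw [card_image_of_injective _ hinj, image_card hU, image_card hV] at h1
      refine h1.trans ?_
      refine mul_le_mul_of_nonneg_right ?_ hmn
      have h2 : (Real.log ((4 * H ^ 4 : ℕ) : ℝ) ^ 2 / L) ^ k ≤ 36 ^ k * (Real.log H ^ 2 / L) ^ k := by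
        rw [← mul_pow]
        refine pow_le_pow_left₀ (by positivity) ?_ k
        rw [mul_div_assoc']
        refine div_le_div_of_nonneg_right ?_ hL.le
        have h3 : 0 ≤ Real.log ((4 * H ^ 4 : ℕ) : ℝ) := Real.log_natCast_nonneg _
        calc Real.log ((4 * H ^ 4 : ℕ) : ℝ) ^ 2 ≤ (6 * Real.log H) ^ 2 := pow_le_pow_left₀ h3 b1 2
          _ = 36 * Real.log H ^ 2 := by ring
      have h4 : 0 ≤ (343 : ℝ) ^ k * (Real.log H ^ 2 / L) ^ k := by positivity
      calc C * (Real.log ((4 * H ^ 4 : ℕ) : ℝ) ^ 2 / L) ^ k ≤ C * (36 ^ k * (Real.log H ^ 2 / L) ^ k) :=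
            mul_le_mul_of_nonneg_left h2 hC.le
        _ ≤ (C * 36 ^ k + 343 ^ k) * (Real.log H ^ 2 / L) ^ k := by rw [add_mul]; linarith
    · intro x hx x' hx'
      obtain ⟨i, -, rfl⟩ := mem_image.1 hx
      obtain ⟨j, -, rfl⟩ := mem_image.1 hx'
      exact (hUV i j).2
    · intro x hx
      obtain ⟨z, hz, rfl⟩ := mem_image.1 hx
      obtain ⟨g1, d, g2, g3, y, g4, g5, g6, g7⟩ := hG z hz
      rw [image_card hU, image_card hV]
      refine ⟨mem_product.2 ⟨mem_image_of_mem _ (mem_univ _), mem_image_of_mem _ (mem_univ _)⟩, ?_, d, g2, ?_, y, g4, g5, g6, g7⟩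
      · rw [(hUV z.1 z.2).1]
        exact mul_ne_zero hD (mul_ne_zero hD g1)
      · rw [(hUV z.1 z.2).1]
        exact sq_change g3

theorem rank_thr (k : ℕ) (hk : 1 ≤ k) (η c : ℝ) (hη : 0 < η) (hη1 : η ≤ 1) (hc : 0 < c) (hc1 : c ≤ 1) :
    ∃ C : ℝ, 0 < C ∧ ∃ H0 : ℕ, 3 ≤ H0 ∧ ∀ (H m n : ℕ) (M : Fin m → Fin n → ℤ), H0 ≤ H → (∀ i j, |M i j| ≤ H) →
      RankTwo M → (7 * Real.log H) ^ (6 * k) ≤ m → (7 * Real.log H) ^ (6 * k) ≤ n →
      ∀ G : Finset (Fin m × Fin n), (∀ z ∈ G, M z.1 z.2 ≠ 0 ∧ ∃ d : ℤ, Fund d ∧ IsSquare (M z.1 z.2 * d) ∧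
        (H : ℝ) ^ c ≤ |(d : ℝ)| ∧
          ¬ |2 * ((Spl d (⌈thr d⌉₊ - 1)).card : ℝ) - (π (⌈thr d⌉₊ - 1) : ℝ)| ≤ η * (π (⌈thr d⌉₊ - 1) : ℝ)) →
      (G.card : ℝ) ≤ C * (1 / Real.log (Real.log H)) ^ (2 * k) * (m * n) := by
  classical
  obtain ⟨C, hC, H0, hH03, h⟩ := threshold_pairs k hk η (c / 7) hη hη1 (by linarith) (by linarith)
  refine ⟨C, hC, H0, hH03, ?_⟩
  intro H m n M hH hMH hR hm hn G hG
  obtain ⟨⟨a, c', b, e, hM⟩, hmi⟩ := hR
  have hH3 : 3 ≤ H := hH03.trans hH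
  have hHr : (3 : ℝ) ≤ H := by exact_mod_cast hH3
  obtain ⟨b1, b2, b3, b4⟩ := log_bounds (H := H) (by omega)
  have hlH : 1 < Real.log H := by
    rw [Real.lt_log_iff_exp_lt (by linarith)]
    exact lt_of_lt_of_le Real.exp_one_lt_d9 (by linarith)
  have hll : 0 < Real.log (Real.log H) := Real.log_pos hlH
  have hbig : (1 : ℝ) < (7 * Real.log H) ^ (6 * k) := one_lt_pow₀ (by linarith) (by omega)
  have hm2 : 2 ≤ m := by
    have : (1 : ℝ) < m := lt_of_lt_of_le hbig hm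
    exact_mod_cast this
  have hn2 : 2 ≤ n := by
    have : (1 : ℝ) < n := lt_of_lt_of_le hbig hn
    exact_mod_cast this
  obtain ⟨D, U, V, hD, hU, hV, hIU, hIV, hUV⟩ := reduce M H (by omega) hMH a c' b e hM hmi
    (by rw [Fintype.card_fin]; exact hm2) (by rw [Fintype.card_fin]; exact hn2)
  have hinj : Function.Injective (fun z : Fin m × Fin n => (U z.1, V z.2)) := by
    intro z z' hz
    exact Prod.ext (hU (congrArg Prod.fst hz)) (hV (congrArg Prod.snd hz))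
  have hH5 : H ≤ 4 * H ^ 5 := by
    have h1 : H ^ 1 ≤ H ^ 5 := Nat.pow_le_pow_right (by omega) (by norm_num)
    rw [pow_one] at h1
    omega
  have hpow : Real.log ((4 * H ^ 5 : ℕ) : ℝ) ^ (6 * k) ≤ (7 * Real.log H) ^ (6 * k) :=
    pow_le_pow_left₀ (by linarith) b2 _
  have h1 := h (4 * H ^ 4) (4 * H ^ 5) D (univ.image U) (univ.image V)
    (by have : 1 ≤ H ^ 4 := Nat.one_le_pow _ _ (by omega)
        omega) (hH.trans hH5) hIU hIV ?_ ?_ ?_
    (G.image (fun z : Fin m × Fin n => (U z.1, V z.2))) ?_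
  · rw [card_image_of_injective _ hinj, image_card hU, image_card hV] at h1
    refine h1.trans ?_
    refine mul_le_mul_of_nonneg_right (mul_le_mul_of_nonneg_left (pow_le_pow_left₀ ?_ ?_ _) hC.le) (by positivity)
    · refine div_nonneg (Real.log_natCast_nonneg _) (mul_nonneg (by linarith) (Real.log_nonneg (by linarith)))
    · have g1 : Real.log (Real.log H) ≤ Real.log (Real.log ((4 * H ^ 5 : ℕ) : ℝ)) := Real.log_le_log (by linarith) b3
      have g2 : 0 < Real.log ((4 * H ^ 5 : ℕ) : ℝ) := by linarith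
      rw [div_le_div_iff₀ (mul_pos g2 (by linarith)) hll]
      calc Real.log ((4 * H ^ 4 : ℕ) : ℝ) * Real.log (Real.log H) ≤
          Real.log ((4 * H ^ 5 : ℕ) : ℝ) * Real.log (Real.log ((4 * H ^ 5 : ℕ) : ℝ)) :=
            mul_le_mul b4 g1 hll.le g2.le
        _ = _ := by ring
  · intro x hx x' hx'
    obtain ⟨i, -, rfl⟩ := mem_image.1 hx
    obtain ⟨j, -, rfl⟩ := mem_image.1 hx'
    exact (hUV i j).2
  · rw [image_card hU]
    exact hpow.trans hm
  · rw [image_card hV]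
    exact hpow.trans hn
  · intro x hx
    obtain ⟨z, hz, rfl⟩ := mem_image.1 hx
    obtain ⟨g1, d, g2, g3, g4, g5⟩ := hG z hz
    refine ⟨mem_product.2 ⟨mem_image_of_mem _ (mem_univ _), mem_image_of_mem _ (mem_univ _)⟩, ?_, d, g2, ?_, ?_, g5⟩
    · rw [(hUV z.1 z.2).1]
      exact mul_ne_zero hD (mul_ne_zero hD g1)
    · rw [(hUV z.1 z.2).1]
      exact sq_change g3
    · refine le_trans ?_ g4
      have h5 : ((4 * H ^ 5 : ℕ) : ℝ) ≤ (H : ℝ) ^ (7 : ℝ) := by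
        have h6 : (4 : ℝ) ≤ (H : ℝ) ^ 2 := by nlinarith
        have h7 : (0 : ℝ) < (H : ℝ) ^ 5 := by positivity
        have h8 : (H : ℝ) ^ (7 : ℝ) = (H : ℝ) ^ 7 := by
          rw [← Real.rpow_natCast]; norm_num
        rw [h8]
        push_cast
        nlinarith
      calc ((4 * H ^ 5 : ℕ) : ℝ) ^ (c / 7) ≤ ((H : ℝ) ^ (7 : ℝ)) ^ (c / 7) :=
            Real.rpow_le_rpow (Nat.cast_nonneg _) h5 (by positivity)
        _ = (H : ℝ) ^ c := by
            rw [← Real.rpow_mul (by linarith)]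
            congr 1
            ring

end Pool.Agent.V8H62.DT
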